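import Mathlib

/-!
# Contour shift with a Gaussian weight (core of task CSB of project BG, helper380)
-/

set_option autoImplicit false

namespace Pool.Agent.H411.BG

open Complex MeasureTheory Filter Topology Set
open scoped Real

/-- the kernel of the pole -/
noncomputable def kk (y : ℝ) : ℂ := 1 / (1 / 2 + y * I) - 1 / (-(3 / 2) + y * I)

lemma ne1 (y : ℝ) : (1 / 2 + y * I : ℂ) ≠ 0 := by
  intro h
  have := congrArg Complex.re h
  simp at this

lemma ne2 (y : ℝ) : (-(3 / 2) + y * I : ℂ) ≠ 0 := by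
  intro h
  have := congrArg Complex.re h
  norm_num at this

lemma kk_cont : Continuous kk := by
  unfold kk
  refine Continuous.sub (Continuous.div continuous_const (by fun_prop) ne1)
    (Continuous.div continuous_const (by fun_prop) ne2)

lemma kk_int : Integrable kk := by
  refine Integrable.mono' (g := fun y : ℝ => 4 * (1 + y ^ 2)⁻¹)
    (integrable_inv_one_add_sq.const_mul 4) kk_cont.aestronglyMeasurable ?_
  refine Filter.Eventually.of_forall fun y => ?_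
  have h1 := ne1 y
  have h2 := ne2 y
  have e : kk y = -2 / ((1 / 2 + y * I) * (-(3 / 2) + y * I)) := by
    unfold kk
    rw [div_sub_div _ _ h1 h2]
    congr 1
    ring
  have n1 : ‖(1 / 2 + y * I : ℂ)‖ ^ 2 = 1 / 4 + y ^ 2 := by
    rw [← Complex.normSq_eq_norm_sq]
    simp [Complex.normSq_apply]
    ring
  have n2 : ‖(-(3 / 2) + y * I : ℂ)‖ ^ 2 = 9 / 4 + y ^ 2 := by
    rw [← Complex.normSq_eq_norm_sq]
    simp [Complex.normSq_apply]
    ring
  rw [e, norm_div, norm_mul, norm_neg]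
  have p1 : 0 < ‖(1 / 2 + y * I : ℂ)‖ := norm_pos_iff.mpr h1
  have p2 : 0 < ‖(-(3 / 2) + y * I : ℂ)‖ := norm_pos_iff.mpr h2
  have hy : 0 < 1 + y ^ 2 := by positivity
  have key : (1 + y ^ 2) / 2 ≤ ‖(1 / 2 + y * I : ℂ)‖ * ‖(-(3 / 2) + y * I : ℂ)‖ := by
    refine le_of_sq_le_sq ?_ (by positivity)
    rw [mul_pow, n1, n2]
    nlinarith [sq_nonneg y, sq_nonneg (y ^ 2)]
  rw [div_le_iff₀ (by positivity)]
  have : ‖(2 : ℂ)‖ = 2 := by simp
  rw [this]
  have h3 : (1 + y ^ 2)⁻¹ * (1 + y ^ 2) = 1 := inv_mul_cancel₀ hy.ne'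
  have h4 : 0 < (1 + y ^ 2)⁻¹ := by positivity
  nlinarith

/-- the abstract contour shift -/
lemma shift (F : ℂ → ℂ) (hF : Differentiable ℂ F) (M : ℝ)
    (hM : ∀ s : ℂ, -1 ≤ s.re → s.re ≤ 2 → 1 ≤ |s.im| → ‖F s‖ ≤ M)
    (hA : Integrable fun y : ℝ => F (3 / 2 + y * I) / (1 / 2 + y * I))
    (hB : Integrable fun y : ℝ => F (-(1 / 2) + y * I) / (-(3 / 2) + y * I)) :
    ∫ y : ℝ, F (3 / 2 + y * I) / (1 / 2 + y * I) =
      (∫ y : ℝ, F (-(1 / 2) + y * I) / (-(3 / 2) + y * I)) + F 1 * ∫ y : ℝ, kk y := by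
  set D : ℂ → ℂ := dslope F 1 with hD
  have hDd : Differentiable ℂ D := by
    have := (Complex.differentiableOn_dslope (f := F) (c := 1) (s := univ) univ_mem).2
      hF.differentiableOn
    exact differentiableOn_univ.1 this
  have hDv : ∀ s : ℂ, s ≠ 1 → D s = (F s - F 1) / (s - 1) := by
    intro s hs
    rw [hD, dslope_of_ne _ hs, slope_def_field]
  -- the rectangle
  have rect : ∀ T : ℝ, 1 ≤ T →
      ‖∫ y in (-T)..T, (F (3 / 2 + y * I) / (1 / 2 + y * I) -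
        F (-(1 / 2) + y * I) / (-(3 / 2) + y * I) - F 1 * kk y)‖ ≤ 4 * (M + ‖F 1‖) / T := by
    intro T hT
    have hT0 : 0 < T := by linarith
    have h := Complex.integral_boundary_rect_eq_zero_of_differentiableOn D
      ((-(1 / 2) : ℝ) + (-T : ℝ) * I) ((3 / 2 : ℝ) + (T : ℝ) * I) hDd.differentiableOn
    have r1 : (((-(1 / 2) : ℝ) : ℂ) + ((-T : ℝ) : ℂ) * I).re = -(1 / 2) := by simp
    have r2 : (((-(1 / 2) : ℝ) : ℂ) + ((-T : ℝ) : ℂ) * I).im = -T := by simp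
    have r3 : (((3 / 2 : ℝ) : ℂ) + ((T : ℝ) : ℂ) * I).re = 3 / 2 := by
      rw [Complex.add_re, Complex.ofReal_re]; simp
    have r4 : (((3 / 2 : ℝ) : ℂ) + ((T : ℝ) : ℂ) * I).im = T := by
      rw [Complex.add_im, Complex.ofReal_im]; simp
    rw [r1, r2, r3, r4] at h
    -- vertical sides
    have v1 : ∀ y : ℝ, D (((3 / 2 : ℝ) : ℂ) + y * I) - D (((-(1 / 2) : ℝ) : ℂ) + y * I) =
        F (3 / 2 + y * I) / (1 / 2 + y * I) -
        F (-(1 / 2) + y * I) / (-(3 / 2) + y * I) - F 1 * kk y := by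
      intro y
      have c1 : (((3 / 2 : ℝ) : ℂ) + y * I) = 3 / 2 + y * I := by push_cast; ring
      have c2 : (((-(1 / 2) : ℝ) : ℂ) + y * I) = -(1 / 2) + y * I := by push_cast; ring
      rw [c1, c2]
      have e1 : (3 / 2 + y * I : ℂ) - 1 = 1 / 2 + y * I := by ring
      have e2 : (-(1 / 2) + y * I : ℂ) - 1 = -(3 / 2) + y * I := by ring
      have m1 : (3 / 2 + y * I : ℂ) ≠ 1 := by
        intro hh; exact ne1 y (by rw [← e1, hh]; ring)
      have m2 : (-(1 / 2) + y * I : ℂ) ≠ 1 := by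
        intro hh; exact ne2 y (by rw [← e2, hh]; ring)
      rw [hDv _ m1, hDv _ m2, e1, e2]
      unfold kk
      ring
    have cD : Continuous D := hDd.continuous
    have i1 : IntervalIntegrable (fun y : ℝ => D (((3 / 2 : ℝ) : ℂ) + y * I)) volume (-T) T :=
      (cD.comp (by fun_prop)).intervalIntegrable _ _
    have i2 : IntervalIntegrable (fun y : ℝ => D (((-(1 / 2) : ℝ) : ℂ) + y * I)) volume (-T) T :=
      (cD.comp (by fun_prop)).intervalIntegrable _ _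
    have v2 : ∫ y in (-T)..T, (F (3 / 2 + y * I) / (1 / 2 + y * I) -
        F (-(1 / 2) + y * I) / (-(3 / 2) + y * I) - F 1 * kk y) =
        (∫ y in (-T)..T, D (((3 / 2 : ℝ) : ℂ) + y * I)) -
          ∫ y in (-T)..T, D (((-(1 / 2) : ℝ) : ℂ) + y * I) := by
      rw [← intervalIntegral.integral_sub i1 i2]
      refine intervalIntegral.integral_congr fun y _ => (v1 y).symm
    -- horizontal sides
    have hb : ∀ τ : ℝ, |τ| = T → ‖∫ u in (-(1 / 2) : ℝ)..(3 / 2), D (u + (τ : ℂ) * I)‖ ≤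
        (M + ‖F 1‖) / T * 2 := by
      intro τ hτ
      have := intervalIntegral.norm_integral_le_of_norm_le_const (a := (-(1 / 2) : ℝ))
        (b := 3 / 2) (f := fun u : ℝ => D (u + (τ : ℂ) * I)) (C := (M + ‖F 1‖) / T) ?_
      · refine this.trans (le_of_eq ?_)
        norm_num
      · intro u hu
        rw [uIoc_of_le (by norm_num)] at hu
        have hre : ((u : ℂ) + (τ : ℂ) * I).re = u := by simp
        have him : ((u : ℂ) + (τ : ℂ) * I).im = τ := by simp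
        have hne : (u : ℂ) + (τ : ℂ) * I ≠ 1 := by
          intro hh
          have := congrArg Complex.im hh
          rw [him] at this
          simp at this
          rw [this] at hτ
          simp at hτ
          linarith
        rw [hDv _ hne, norm_div]
        have hnum : ‖F ((u : ℂ) + (τ : ℂ) * I) - F 1‖ ≤ M + ‖F 1‖ := by
          refine (norm_sub_le _ _).trans ?_
          have := hM ((u : ℂ) + (τ : ℂ) * I) (by rw [hre]; linarith [hu.1])
            (by rw [hre]; linarith [hu.2]) (by rw [him, hτ]; exact hT)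
          linarith
        have hden : T ≤ ‖(u : ℂ) + (τ : ℂ) * I - 1‖ := by
          have := Complex.abs_im_le_norm ((u : ℂ) + (τ : ℂ) * I - 1)
          rw [Complex.sub_im, him] at this
          simp at this
          rw [hτ] at this
          exact this
        have h0 : 0 ≤ M + ‖F 1‖ := (norm_nonneg _).trans hnum
        gcongr
    have b1 := hb (-T) (by rw [abs_neg, abs_of_pos hT0])
    have b2 := hb T (abs_of_pos hT0)
    rw [v2]
    have h5 : (∫ y in (-T)..T, D (((3 / 2 : ℝ) : ℂ) + y * I)) -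
          ∫ y in (-T)..T, D (((-(1 / 2) : ℝ) : ℂ) + y * I) =
        I * ((∫ u in (-(1 / 2) : ℝ)..(3 / 2), D (u + ((-T : ℝ) : ℂ) * I)) -
          ∫ u in (-(1 / 2) : ℝ)..(3 / 2), D (u + (T : ℂ) * I)) := by
      simp only [smul_eq_mul] at h
      have hI : I * I = -1 := Complex.I_mul_I
      linear_combination (-I) * h + ((∫ y in (-T)..T, D (((3 / 2 : ℝ) : ℂ) + y * I)) -
          ∫ y in (-T)..T, D (((-(1 / 2) : ℝ) : ℂ) + y * I)) * hI
    rw [h5, norm_mul, Complex.norm_I, one_mul]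
    refine (norm_sub_le _ _).trans ?_
    refine (add_le_add b1 b2).trans (le_of_eq ?_)
    ring
  -- the limit
  have hint : Integrable fun y : ℝ => F (3 / 2 + y * I) / (1 / 2 + y * I) -
        F (-(1 / 2) + y * I) / (-(3 / 2) + y * I) - F 1 * kk y :=
    (hA.sub hB).sub (kk_int.const_mul _)
  have lim := intervalIntegral_tendsto_integral hint tendsto_neg_atTop_atBot tendsto_id
    (l := (atTop : Filter ℝ))
  have lim0 : Tendsto (fun T : ℝ => ∫ y in (-T)..(id T), (F (3 / 2 + y * I) / (1 / 2 + y * I) -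
        F (-(1 / 2) + y * I) / (-(3 / 2) + y * I) - F 1 * kk y)) atTop (𝓝 0) := by
    refine squeeze_zero_norm' (a := fun T : ℝ => 4 * (M + ‖F 1‖) / T) ?_ ?_
    · filter_upwards [eventually_ge_atTop (1 : ℝ)] with T hT
      exact rect T hT
    · exact tendsto_const_nhds.div_atTop tendsto_id
  have hz := tendsto_nhds_unique lim lim0
  have q1 : ∫ y : ℝ, (F (3 / 2 + y * I) / (1 / 2 + y * I) -
        F (-(1 / 2) + y * I) / (-(3 / 2) + y * I) - F 1 * kk y) =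
      (∫ y : ℝ, (F (3 / 2 + y * I) / (1 / 2 + y * I) -
        F (-(1 / 2) + y * I) / (-(3 / 2) + y * I))) - ∫ y : ℝ, F 1 * kk y :=
    integral_sub (hA.sub hB) (kk_int.const_mul _)
  have q2 : ∫ y : ℝ, (F (3 / 2 + y * I) / (1 / 2 + y * I) -
        F (-(1 / 2) + y * I) / (-(3 / 2) + y * I)) =
      (∫ y : ℝ, F (3 / 2 + y * I) / (1 / 2 + y * I)) -
        ∫ y : ℝ, F (-(1 / 2) + y * I) / (-(3 / 2) + y * I) := integral_sub hA hB
  rw [q1, q2, integral_const_mul] at hz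
  linear_combination hz

/-- the integrand, as a function of `s` -/
noncomputable def Fx (W : ℂ → ℂ) (x L : ℝ) (s : ℂ) : ℂ :=
  W s * (x : ℂ) ^ s * cexp (s ^ 2 / (2 * (L : ℂ) ^ 2))

lemma norm_Fx (W : ℂ → ℂ) (x L : ℝ) (hx : 0 < x) (s : ℂ) :
    ‖Fx W x L s‖ = ‖W s‖ * x ^ s.re * Real.exp ((s.re ^ 2 - s.im ^ 2) / (2 * L ^ 2)) := by
  unfold Fx
  rw [norm_mul, norm_mul, Complex.norm_cpow_eq_rpow_re_of_pos hx, Complex.norm_exp]
  congr 2
  have : (2 * (L : ℂ) ^ 2) = ((2 * L ^ 2 : ℝ) : ℂ) := by push_cast; ring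
  rw [this, Complex.div_ofReal_re]
  congr 1
  rw [sq, Complex.mul_re]
  ring

lemma Fx_diff (W : ℂ → ℂ) (hW : Differentiable ℂ W) (x L : ℝ) (hx : 0 < x) :
    Differentiable ℂ (Fx W x L) := by
  unfold Fx
  refine (hW.mul ?_).mul ?_
  · intro s
    exact (differentiableAt_id.const_cpow (Or.inl (by exact_mod_cast hx.ne')))
  · exact ((differentiable_id.pow 2).div_const _).cexp

lemma poly_le (L t : ℝ) (hL : 1 ≤ L) :
    (1 + |t|) ^ 5 ≤ 120 * Real.exp 2 * L ^ 5 * Real.exp (t ^ 2 / (4 * L ^ 2)) := by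
  have hL0 : 0 < L := by linarith
  set u : ℝ := |t| / L with hu
  have hu0 : 0 ≤ u := by positivity
  have h1 : 1 + |t| ≤ L * (1 + u) := by
    have : L * u = |t| := by rw [hu]; field_simp
    nlinarith
  have h2 : (1 + u) ^ 5 ≤ 120 * Real.exp (1 + u) := by
    have := Real.pow_div_factorial_le_exp (1 + u) (by linarith) 5
    have h5 : ((Nat.factorial 5 : ℕ) : ℝ) = 120 := by norm_num [Nat.factorial]
    rw [h5, div_le_iff₀ (by norm_num)] at this
    linarith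
  have h3 : Real.exp (1 + u) ≤ Real.exp 2 * Real.exp (t ^ 2 / (4 * L ^ 2)) := by
    rw [← Real.exp_add]
    refine Real.exp_le_exp.2 ?_
    have : t ^ 2 / (4 * L ^ 2) = u ^ 2 / 4 := by
      rw [hu, div_pow, sq_abs]
      field_simp
    rw [this]
    nlinarith [sq_nonneg (u / 2 - 1)]
  calc (1 + |t|) ^ 5 ≤ (L * (1 + u)) ^ 5 := by gcongr
    _ = L ^ 5 * (1 + u) ^ 5 := by ring
    _ ≤ L ^ 5 * (120 * Real.exp (1 + u)) := by gcongr
    _ ≤ L ^ 5 * (120 * (Real.exp 2 * Real.exp (t ^ 2 / (4 * L ^ 2)))) := by gcongr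
    _ = 120 * Real.exp 2 * L ^ 5 * Real.exp (t ^ 2 / (4 * L ^ 2)) := by ring

/-- pointwise bound on a vertical line -/
lemma line_le (W : ℂ → ℂ) (x L σ C : ℝ) (hx : 0 < x) (hL : 1 ≤ L) (hσ : σ ^ 2 ≤ 9 / 4)
    (hC : 0 ≤ C) (hW : ∀ t : ℝ, ‖W (σ + t * I)‖ ≤ C * (1 + |t|) ^ 5) (y : ℝ) :
    ‖Fx W x L (σ + y * I)‖ ≤
      C * x ^ σ * (120 * Real.exp 2 * L ^ 5) * Real.exp 2 * Real.exp (-(1 / (4 * L ^ 2)) * y ^ 2) := by
  have hL0 : 0 < L := by linarith
  rw [norm_Fx W x L hx]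
  have hre : ((σ : ℂ) + y * I).re = σ := by simp
  have him : ((σ : ℂ) + y * I).im = y := by simp
  rw [hre, him]
  have h1 : Real.exp ((σ ^ 2 - y ^ 2) / (2 * L ^ 2)) ≤
      Real.exp 2 * Real.exp (-(y ^ 2 / (2 * L ^ 2))) := by
    rw [← Real.exp_add]
    refine Real.exp_le_exp.2 ?_
    have : (σ ^ 2 - y ^ 2) / (2 * L ^ 2) = σ ^ 2 / (2 * L ^ 2) - y ^ 2 / (2 * L ^ 2) := by ring
    rw [this]
    have h2 : σ ^ 2 / (2 * L ^ 2) ≤ 2 := by
      rw [div_le_iff₀ (by positivity)]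
      nlinarith
    linarith
  have h3 : Real.exp (-(1 / (4 * L ^ 2)) * y ^ 2) =
      Real.exp (y ^ 2 / (4 * L ^ 2)) * Real.exp (-(y ^ 2 / (2 * L ^ 2))) := by
    rw [← Real.exp_add]
    congr 1
    field_simp
    ring
  have h4 := hW y
  have h5 := poly_le L y hL
  have hxs : 0 < x ^ σ := Real.rpow_pos_of_pos hx σ
  calc ‖W (σ + y * I)‖ * x ^ σ * Real.exp ((σ ^ 2 - y ^ 2) / (2 * L ^ 2))
      ≤ (C * (1 + |y|) ^ 5) * x ^ σ * (Real.exp 2 * Real.exp (-(y ^ 2 / (2 * L ^ 2)))) := by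
        gcongr
    _ ≤ (C * (120 * Real.exp 2 * L ^ 5 * Real.exp (y ^ 2 / (4 * L ^ 2)))) * x ^ σ *
        (Real.exp 2 * Real.exp (-(y ^ 2 / (2 * L ^ 2)))) := by gcongr
    _ = _ := by rw [h3]; ring

/-- the growth in the strip is beaten by the Gaussian -/
lemma strip_le (W : ℂ → ℂ) (C x L : ℝ) (hx : 1 ≤ x) (hL : 1 ≤ L)
    (hW : ∀ s : ℂ, -1 ≤ s.re → s.re ≤ 2 → ‖W s‖ ≤ Real.exp (C * (1 + |s.im|) ^ (3 / 2 : ℝ)))
    (s : ℂ) (h1 : -1 ≤ s.re) (h2 : s.re ≤ 2) (h3 : 1 ≤ |s.im|) :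
    ‖Fx W x L s‖ ≤ Real.exp (|C| * (8 * L ^ 2 * |C|) ^ 3 + 2) * x ^ (2 : ℝ) := by
  have hL0 : 0 < L := by linarith
  have hx0 : 0 < x := by linarith
  rw [norm_Fx W x L hx0]
  set T : ℝ := |s.im| with hT
  have hsq : s.im ^ 2 = T ^ 2 := (sq_abs _).symm
  rw [hsq]
  set z : ℝ := Real.sqrt (1 + T) with hz
  have hz0 : 0 ≤ z := Real.sqrt_nonneg _
  have hz2 : z ^ 2 = 1 + T := Real.sq_sqrt (by linarith)
  have hz3 : (1 + T) ^ (3 / 2 : ℝ) = z ^ 3 := by
    rw [hz, Real.sqrt_eq_rpow, ← Real.rpow_natCast, ← Real.rpow_mul (by linarith)]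
    norm_num
  have e1 : C * (1 + T) ^ (3 / 2 : ℝ) + (s.re ^ 2 - T ^ 2) / (2 * L ^ 2) ≤
      |C| * (8 * L ^ 2 * |C|) ^ 3 + 2 := by
    rw [hz3]
    have a1 : C * z ^ 3 ≤ |C| * z ^ 3 := by
      have := le_abs_self C
      gcongr
    have a2 : s.re ^ 2 / (2 * L ^ 2) ≤ 2 := by
      rw [div_le_iff₀ (by positivity)]
      nlinarith
    have a3 : z ^ 4 / (8 * L ^ 2) ≤ T ^ 2 / (2 * L ^ 2) := by
      rw [div_le_div_iff₀ (by positivity) (by positivity)]
      have : z ^ 4 = (1 + T) ^ 2 := by rw [← hz2]; ring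
      rw [this]
      have h4 : (1 + T) ^ 2 ≤ 4 * T ^ 2 := by nlinarith
      nlinarith [sq_nonneg L, mul_le_mul_of_nonneg_right h4 (sq_nonneg L)]
    have a4 : |C| * z ^ 3 ≤ |C| * (8 * L ^ 2 * |C|) ^ 3 + z ^ 4 / (8 * L ^ 2) := by
      have hC0 : 0 ≤ |C| := abs_nonneg C
      rcases le_total z (8 * L ^ 2 * |C|) with hc | hc
      · have : |C| * z ^ 3 ≤ |C| * (8 * L ^ 2 * |C|) ^ 3 := by gcongr
        have : 0 ≤ z ^ 4 / (8 * L ^ 2) := by positivity
        linarith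
      · have b1 : |C| * z ^ 3 ≤ z ^ 4 / (8 * L ^ 2) := by
          rw [le_div_iff₀ (by positivity)]
          have : 0 ≤ z ^ 3 := by positivity
          nlinarith
        have : 0 ≤ |C| * (8 * L ^ 2 * |C|) ^ 3 := by positivity
        linarith
    have a5 : (s.re ^ 2 - T ^ 2) / (2 * L ^ 2) = s.re ^ 2 / (2 * L ^ 2) - T ^ 2 / (2 * L ^ 2) := by
      ring
    rw [a5]
    linarith
  have hW' := hW s h1 h2
  have hxr : x ^ s.re ≤ x ^ (2 : ℝ) := Real.rpow_le_rpow_of_exponent_le hx h2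
  have hxp : 0 < x ^ s.re := Real.rpow_pos_of_pos hx0 _
  calc ‖W s‖ * x ^ s.re * Real.exp ((s.re ^ 2 - T ^ 2) / (2 * L ^ 2))
      ≤ Real.exp (C * (1 + T) ^ (3 / 2 : ℝ)) * x ^ (2 : ℝ) *
        Real.exp ((s.re ^ 2 - T ^ 2) / (2 * L ^ 2)) := by gcongr
    _ = Real.exp (C * (1 + T) ^ (3 / 2 : ℝ) + (s.re ^ 2 - T ^ 2) / (2 * L ^ 2)) * x ^ (2 : ℝ) := by
        rw [Real.exp_add]; ring
    _ ≤ _ := by gcongr

/-- The statement of task CSB. -/
theorem core : ∀ W : ℂ → ℂ, Differentiable ℂ W →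
    (∃ C : ℝ, ∀ s : ℂ, -1 ≤ s.re → s.re ≤ 2 → ‖W s‖ ≤ Real.exp (C * (1 + |s.im|) ^ (3 / 2 : ℝ))) →
    (∃ C : ℝ, ∀ t : ℝ, ‖W (-(1 / 2) + I * t)‖ ≤ C * (1 + |t|) ^ (5 : ℕ)) →
    (∃ C : ℝ, ∀ t : ℝ, ‖W (3 / 2 + I * t)‖ ≤ C * (1 + |t|)) →
    ∃ C : ℝ, 0 < C ∧ ∀ x L : ℝ, 1 ≤ x → 1 ≤ L → L ≤ x ^ (1 / 4 : ℝ) →
      ‖∫ t : ℝ, W (3 / 2 + I * t) / (1 / 2 + I * t) *
        (x : ℂ) ^ (3 / 2 + I * (t : ℂ)) * cexp ((3 / 2 + I * (t : ℂ)) ^ 2 / (2 * (L : ℂ) ^ 2))‖ ≤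
        C * x := by
  rintro W hW ⟨C0, hC0⟩ ⟨C1, hC1⟩ ⟨C2, hC2⟩
  -- nonnegative constants
  have k1 : ∀ t : ℝ, ‖W (((-(1 / 2) : ℝ) : ℂ) + t * I)‖ ≤ |C1| * (1 + |t|) ^ 5 := by
    intro t
    have e : (((-(1 / 2) : ℝ) : ℂ) + t * I) = -(1 / 2) + I * t := by push_cast; ring
    rw [e]
    refine (hC1 t).trans ?_
    have := le_abs_self C1
    gcongr
  have k2 : ∀ t : ℝ, ‖W (((3 / 2 : ℝ) : ℂ) + t * I)‖ ≤ |C2| * (1 + |t|) ^ 5 := by
    intro t
    have e : (((3 / 2 : ℝ) : ℂ) + t * I) = 3 / 2 + I * t := by push_cast; ring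
    rw [e]
    refine (hC2 t).trans ?_
    have h1 := le_abs_self C2
    have h2 : (1 + |t|) ≤ (1 + |t|) ^ 5 := by
      have : (1 : ℝ) ≤ 1 + |t| := by linarith [abs_nonneg t]
      calc (1 + |t|) = (1 + |t|) ^ 1 := (pow_one _).symm
        _ ≤ (1 + |t|) ^ 5 := pow_le_pow_right₀ this (by norm_num)
    have h0 : (0 : ℝ) ≤ 1 + |t| := by positivity
    calc C2 * (1 + |t|) ≤ |C2| * (1 + |t|) := by gcongr
      _ ≤ |C2| * (1 + |t|) ^ 5 := by gcongr
  set K : ℝ := 120 * Real.exp 2 * Real.exp 2 * (2 * Real.sqrt π) with hK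
  refine ⟨|C1| * K + ‖W 1‖ * Real.exp 1 * ‖∫ y : ℝ, kk y‖ + 1, by positivity, ?_⟩
  intro x L hx hL hLx
  have hx0 : 0 < x := by linarith
  have hL0 : 0 < L := by linarith
  have hb : 0 < 1 / (4 * L ^ 2) := by positivity
  have hFd := Fx_diff W hW x L hx0
  have hFc : Continuous (Fx W x L) := hFd.continuous
  have l1 := line_le W x L (-(1 / 2)) |C1| hx0 hL (by norm_num) (abs_nonneg _) k1
  have l2 := line_le W x L (3 / 2) |C2| hx0 hL (by norm_num) (abs_nonneg _) k2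
  have g := integrable_exp_neg_mul_sq hb
  -- integrability on the two lines
  have n1 : ∀ y : ℝ, 1 / 2 ≤ ‖(1 / 2 + y * I : ℂ)‖ := by
    intro y
    have := Complex.abs_re_le_norm (1 / 2 + y * I : ℂ)
    have e : (1 / 2 + y * I : ℂ).re = 1 / 2 := by simp
    rw [e, abs_of_pos (by norm_num)] at this
    linarith
  have n2 : ∀ y : ℝ, 1 ≤ ‖(-(3 / 2) + y * I : ℂ)‖ := by
    intro y
    have := Complex.abs_re_le_norm (-(3 / 2) + y * I : ℂ)
    have e : (-(3 / 2) + y * I : ℂ).re = -(3 / 2) := by simp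
    rw [e, abs_neg, abs_of_pos (by norm_num)] at this
    linarith
  have p1 : ∀ y : ℝ, (3 / 2 + y * I : ℂ) = ((3 / 2 : ℝ) : ℂ) + y * I := by
    intro y; push_cast; ring
  have p2 : ∀ y : ℝ, (-(1 / 2) + y * I : ℂ) = ((-(1 / 2) : ℝ) : ℂ) + y * I := by
    intro y; push_cast; ring
  set G2 : ℝ := |C2| * x ^ (3 / 2 : ℝ) * (120 * Real.exp 2 * L ^ 5) * Real.exp 2 with hG2
  set G1 : ℝ := |C1| * x ^ (-(1 / 2) : ℝ) * (120 * Real.exp 2 * L ^ 5) * Real.exp 2 with hG1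
  have hA : Integrable fun y : ℝ => Fx W x L (3 / 2 + y * I) / (1 / 2 + y * I) := by
    refine Integrable.mono' ((g.const_mul G2).const_mul 2) ?_ ?_
    · exact (Continuous.div (hFc.comp (by fun_prop)) (by fun_prop) ne1).aestronglyMeasurable
    · refine Filter.Eventually.of_forall fun y => ?_
      rw [norm_div, div_le_iff₀ (norm_pos_iff.2 (ne1 y)), p1]
      refine (l2 y).trans ?_
      have e0 : 0 ≤ G2 * Real.exp (-(1 / (4 * L ^ 2)) * y ^ 2) := by positivity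
      have := n1 y
      nlinarith
  have bB : ∀ y : ℝ, ‖Fx W x L (-(1 / 2) + y * I) / (-(3 / 2) + y * I)‖ ≤
      G1 * Real.exp (-(1 / (4 * L ^ 2)) * y ^ 2) := by
    intro y
    rw [norm_div, div_le_iff₀ (norm_pos_iff.2 (ne2 y)), p2]
    refine (l1 y).trans ?_
    have e0 : 0 ≤ G1 * Real.exp (-(1 / (4 * L ^ 2)) * y ^ 2) := by positivity
    have := n2 y
    nlinarith
  have hB : Integrable fun y : ℝ => Fx W x L (-(1 / 2) + y * I) / (-(3 / 2) + y * I) := by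
    refine Integrable.mono' (g.const_mul G1) ?_ (Filter.Eventually.of_forall bB)
    exact (Continuous.div (hFc.comp (by fun_prop)) (by fun_prop) ne2).aestronglyMeasurable
  have hsh := shift (Fx W x L) hFd _ (strip_le W C0 x L hx hL hC0) hA hB
  -- the integral of the statement
  have e0 : (∫ t : ℝ, W (3 / 2 + I * t) / (1 / 2 + I * t) *
        (x : ℂ) ^ (3 / 2 + I * (t : ℂ)) * cexp ((3 / 2 + I * (t : ℂ)) ^ 2 / (2 * (L : ℂ) ^ 2))) =
      ∫ y : ℝ, Fx W x L (3 / 2 + y * I) / (1 / 2 + y * I) := by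
    refine integral_congr_ae (Filter.Eventually.of_forall fun t => ?_)
    simp only [Fx]
    rw [mul_comm I (t : ℂ)]
    ring
  rw [e0, hsh]
  refine (norm_add_le _ _).trans ?_
  -- left line
  have left : ‖∫ y : ℝ, Fx W x L (-(1 / 2) + y * I) / (-(3 / 2) + y * I)‖ ≤ |C1| * K * x := by
    refine (norm_integral_le_of_norm_le (g.const_mul G1) (Filter.Eventually.of_forall bB)).trans ?_
    rw [integral_const_mul, integral_gaussian]
    have s1 : Real.sqrt (π / (1 / (4 * L ^ 2))) = 2 * L * Real.sqrt π := by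
      have : π / (1 / (4 * L ^ 2)) = (2 * L) ^ 2 * π := by field_simp; ring
      rw [this, Real.sqrt_mul (by positivity), Real.sqrt_sq (by positivity)]
    rw [s1, hG1, hK]
    have s2 : x ^ (-(1 / 2) : ℝ) * L ^ 6 ≤ x := by
      have t1 : L ^ 6 ≤ (x ^ (1 / 4 : ℝ)) ^ 6 := by gcongr
      have t2 : (x ^ (1 / 4 : ℝ)) ^ 6 = x ^ (3 / 2 : ℝ) := by
        rw [← Real.rpow_natCast, ← Real.rpow_mul hx0.le]
        norm_num
      calc x ^ (-(1 / 2) : ℝ) * L ^ 6 ≤ x ^ (-(1 / 2) : ℝ) * x ^ (3 / 2 : ℝ) := by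
            rw [← t2]; gcongr
        _ = x := by
            rw [← Real.rpow_add hx0]; norm_num
    have c0 : 0 ≤ |C1| * (120 * Real.exp 2 * Real.exp 2 * (2 * Real.sqrt π)) := by positivity
    calc |C1| * x ^ (-(1 / 2) : ℝ) * (120 * Real.exp 2 * L ^ 5) * Real.exp 2 *
          (2 * L * Real.sqrt π)
        = |C1| * (120 * Real.exp 2 * Real.exp 2 * (2 * Real.sqrt π)) *
          (x ^ (-(1 / 2) : ℝ) * L ^ 6) := by ring
      _ ≤ _ := by gcongr
  have pole : ‖Fx W x L 1 * ∫ y : ℝ, kk y‖ ≤ ‖W 1‖ * Real.exp 1 * ‖∫ y : ℝ, kk y‖ * x := by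
    rw [norm_mul, norm_Fx W x L hx0]
    have o1 : (1 : ℂ).re = 1 := Complex.one_re
    have o2 : (1 : ℂ).im = 0 := Complex.one_im
    rw [o1, o2, Real.rpow_one]
    have o3 : Real.exp ((1 ^ 2 - 0 ^ 2) / (2 * L ^ 2)) ≤ Real.exp 1 := by
      refine Real.exp_le_exp.2 ?_
      rw [div_le_iff₀ (by positivity)]
      nlinarith
    calc ‖W 1‖ * x * Real.exp ((1 ^ 2 - 0 ^ 2) / (2 * L ^ 2)) * ‖∫ y : ℝ, kk y‖
        ≤ ‖W 1‖ * x * Real.exp 1 * ‖∫ y : ℝ, kk y‖ := by gcongr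
      _ = _ := by ring
  nlinarith [left, pole]

end Pool.Agent.H411.BG
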