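import Pool.Agent.H380.BG.Stm
import Pool.Agent.H411.BG.CsbCore

/-!
# Task CSB of project BG (helper380): contour shift with a Gaussian weight
-/

set_option autoImplicit false

namespace Pool.Agent.H411.BG

theorem t_CSB : Pool.Agent.H380.BG.S_CSB := core

end Pool.Agent.H411.BG
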